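import Pool.Agent.X274.DT.Prd
import Pool.Agent.X274.HD.Desc

/-!
# Products of rational pairings over all fields
-/

set_option autoImplicit false
set_option linter.unusedSectionVars false

open Matrix Finset
open Pool.Agent.X274.DT

namespace Pool.Agent.X274.DI

/-- the matrix over the field `L` with the same entries -/
def cst (L : Type) [Field L] [CharZero L] {N : ℕ} (A : Matrix (Fin N) (Fin N) ℚ) :
    Matrix (Fin N) (Fin N) L := A.map fun x : ℚ => (x : L)

variable {r : ℕ} {N : Fin (r + 1) → ℕ} {E : Fin (r + 1) → Type} (k : ℕ)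
  (ε : ∀ i, E i → Matrix (Fin (N i)) (Fin (N i)) ℚ) (J : ∀ i, Matrix (Fin (N i)) (Fin (N i)) ℚ)

/-- products of pairings, over all fields at the same time -/
inductive Val : Finset (Fin k) →
    (∀ (L : Type) [Field L] [CharZero L], (Fin k → ∀ i, Fin (N i) → L) → L) → Prop
  | one : Val ∅ fun _ _ _ _ => 1
  | pair {A : Finset (Fin k)}
      {F : ∀ (L : Type) [Field L] [CharZero L], (Fin k → ∀ i, Fin (N i) → L) → L}
      (i : Fin (r + 1)) (a : E i) (j j' : Fin k) (hne : j ≠ j') (hj : j ∉ A) (hj' : j' ∉ A)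
      (h : Val A F) : Val (insert j (insert j' A)) fun L _ _ v =>
        ((cst L (ε i a) *ᵥ v j i) ⬝ᵥ cst L (J i) *ᵥ v j' i) * F L v

variable {k ε J}
variable {A : Finset (Fin k)}
  {F : ∀ (L : Type) [Field L] [CharZero L], (Fin k → ∀ i, Fin (N i) → L) → L}

/-- the pairings over `L` -/
def PL (ε : ∀ i, E i → Matrix (Fin (N i)) (Fin (N i)) ℚ)
    (J : ∀ i, Matrix (Fin (N i)) (Fin (N i)) ℚ) (L : Type) [Field L] [CharZero L] :
    Set ((∀ i, Fin (N i) → L) → (∀ i, Fin (N i) → L) → L) :=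
  {b | ∃ i, ∃ a : E i, ∀ x y, b x y = (cst L (ε i a) *ᵥ x i) ⬝ᵥ cst L (J i) *ᵥ y i}

theorem Val.prd (h : Val k ε J A F) (L : Type) [Field L] [CharZero L] :
    Prd (PL ε J L) (fun _ => ∅) A (F L) := by
  induction h with
  | one => exact Prd.one
  | pair i a j j' hne hj hj' h ih =>
    have hb : (fun x y : ∀ i, Fin (N i) → L => (cst L (ε i a) *ᵥ x i) ⬝ᵥ cst L (J i) *ᵥ y i) ∈
        PL ε J L := ⟨i, a, fun _ _ => rfl⟩
    exact Prd.pair _ hb j j' hne hj hj' ih

theorem Val.ml (h : Val k ε J A F) (L : Type) [Field L] [CharZero L] : MLn A (F L) := by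
  refine Prd.ml ?_ (fun m δ hδ => absurd hδ (Set.notMem_empty δ)) (h.prd L)
  rintro b ⟨i, a, hb⟩
  refine ⟨LinearMap.mk₂ L (fun x y : ∀ i, Fin (N i) → L =>
    (cst L (ε i a) *ᵥ x i) ⬝ᵥ cst L (J i) *ᵥ y i)
    (fun x x' y => by rw [Pi.add_apply, mulVec_add, add_dotProduct])
    (fun c x y => by rw [Pi.smul_apply, mulVec_smul, smul_dotProduct])
    (fun x y y' => by rw [Pi.add_apply, mulVec_add, dotProduct_add])
    (fun c x y => by rw [Pi.smul_apply, mulVec_smul, dotProduct_smul]), hb⟩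

theorem cst_mulVec (L : Type) [Field L] [CharZero L] {N : ℕ} (A : Matrix (Fin N) (Fin N) ℚ)
    (x : Fin N → ℚ) : cst L A *ᵥ (fun a => (x a : L)) = fun a => ((A *ᵥ x) a : L) := by
  funext a
  simp [cst, Matrix.mulVec, dotProduct]

theorem Val.cast (h : Val k ε J A F) (L : Type) [Field L] [CharZero L]
    (v : Fin k → ∀ i, Fin (N i) → ℚ) : F L (fun j i a => (v j i a : L)) = ((F ℚ v : ℚ) : L) := by
  induction h with
  | one => simp
  | pair i a j j' hne hj hj' h ih =>
    show ((cst L (ε i a) *ᵥ fun b => (v j i b : L)) ⬝ᵥ cst L (J i) *ᵥ fun b => (v j' i b : L)) *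
      _ = _
    rw [ih, cst_mulVec, cst_mulVec]
    have h1 : ∀ A : Matrix (Fin (N i)) (Fin (N i)) ℚ, cst ℚ A = A := fun A => by
      ext a b
      simp [cst]
    simp only [h1]
    push_cast
    congr 1
    simp [dotProduct]

/-- invariance under isometries which commute with the coefficients -/
theorem Val.inv (h : Val k ε J A F) (L : Type) [Field L] [CharZero L]
    (G : ∀ i, Matrix (Fin (N i)) (Fin (N i)) L)
    (hG : ∀ i, (G i)ᵀ * cst L (J i) * G i = cst L (J i))
    (hε : ∀ i a, cst L (ε i a) * G i = G i * cst L (ε i a)) (v : Fin k → ∀ i, Fin (N i) → L) :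
    F L (fun j i => G i *ᵥ v j i) = F L v := by
  induction h with
  | one => rfl
  | pair i a j j' hne hj hj' h ih =>
    show ((cst L (ε i a) *ᵥ G i *ᵥ v j i) ⬝ᵥ cst L (J i) *ᵥ G i *ᵥ v j' i) * _ = _
    rw [ih]
    congr 1
    rw [mulVec_mulVec, hε, ← mulVec_mulVec]
    have h1 : ∀ x y : Fin (N i) → L, (G i *ᵥ x) ⬝ᵥ cst L (J i) *ᵥ (G i *ᵥ y) =
        x ⬝ᵥ cst L (J i) *ᵥ y := by
      intro x y
      conv_rhs => rw [← hG i]
      rw [← mulVec_mulVec, ← mulVec_mulVec, dotProduct_mulVec x (G i)ᵀ, vecMul_transpose]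
    rw [h1]

theorem bas_cst {L : Type} [Field L] [CharZero L] (t : Σ i, Fin (N i)) :
    (X274.HD.bas t : ∀ i, Fin (N i) → L) =
      fun i a => (((X274.HD.bas t : ∀ i, Fin (N i) → ℚ) i a : ℚ) : L) := by
  obtain ⟨i', a'⟩ := t
  funext i a
  unfold X274.HD.bas
  by_cases h : i = i'
  · subst h
    rw [Pi.single_eq_same, Pi.single_eq_same]
    by_cases h2 : a = a'
    · subst h2
      rw [Pi.single_eq_same, Pi.single_eq_same, Rat.cast_one]
    · rw [Pi.single_eq_of_ne h2, Pi.single_eq_of_ne h2, Rat.cast_zero]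
  · rw [Pi.single_eq_of_ne h, Pi.single_eq_of_ne h, Pi.zero_apply, Pi.zero_apply, Rat.cast_zero]

/-- the products are given by rational coefficients -/
theorem Val.coeff (h : Val k ε J univ F) (L : Type) [Field L] [CharZero L]
    (v : Fin k → ∀ i, Fin (N i) → L) :
    F L v = ∑ t : Fin k → Σ i, Fin (N i), ((F ℚ (fun j => X274.HD.bas (t j)) : ℚ) : L) *
      ∏ j, v j (t j).1 (t j).2 := by
  have h1 := X274.HD.expand (h.ml L).toMap v
  have h2 : (h.ml L).toMap v = F L v := rfl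
  rw [h2] at h1
  rw [h1]
  refine Finset.sum_congr rfl fun t _ => ?_
  congr 1
  show F L (fun j => X274.HD.bas (t j)) = _
  rw [← h.cast L]
  congr 1
  funext j
  exact bas_cst (t j)

end Pool.Agent.X274.DI
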