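import Pool.Agent.X274.DT.Prod

/-!
# Products of pairings and typed determinants
-/

set_option autoImplicit false
set_option linter.unusedSectionVars false

open Finset
open Pool.Agent.X274.DT

namespace Pool.Agent.X274.DI

/-- a combination of eigenvectors which is an eigenvector is a combination of those eigenvectors with
the same eigenvalue -/
theorem mem_span_eigen {F W : Type} [Field F] [AddCommGroup W] [Module F W] (L : Module.End F W)
    (S : Set W) (hS : ∀ s ∈ S, ∃ μ : F, L s = μ • s) (lam : F) {w : W}
    (hw : w ∈ Submodule.span F S) (hL : L w = lam • w) :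
    w ∈ Submodule.span F {s | s ∈ S ∧ L s = lam • s} := by
  have h1 : Submodule.span F S ≤ Submodule.span F {s | s ∈ S ∧ L s = lam • s} ⊔
      ⨆ (μ : F) (_ : μ ≠ lam), L.eigenspace μ := by
    refine Submodule.span_le.2 fun s hs => ?_
    obtain ⟨μ, hμ⟩ := hS s hs
    by_cases h : μ = lam
    · exact Submodule.mem_sup_left (Submodule.subset_span ⟨hs, h ▸ hμ⟩)
    · refine Submodule.mem_sup_right ?_
      exact Submodule.mem_iSup_of_mem μ (Submodule.mem_iSup_of_mem h
        (Module.End.mem_eigenspace_iff.2 hμ))
  obtain ⟨a, ha, b, hb, hab⟩ := Submodule.mem_sup.1 (h1 hw)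
  have ha' : a ∈ L.eigenspace lam := by
    have h2 : Submodule.span F {s | s ∈ S ∧ L s = lam • s} ≤ L.eigenspace lam :=
      Submodule.span_le.2 fun s hs => Module.End.mem_eigenspace_iff.2 hs.2
    exact h2 ha
  have hw' : w ∈ L.eigenspace lam := Module.End.mem_eigenspace_iff.2 hL
  have hb' : b ∈ L.eigenspace lam := by
    have : b = w - a := by rw [← hab, add_sub_cancel_left]
    rw [this]
    exact Submodule.sub_mem _ hw' ha'
  have hind := Module.End.eigenspaces_iSupIndep L
  have h3 := (hind lam).le_bot (show b ∈ L.eigenspace lam ⊓ _ from ⟨hb', hb⟩)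
  have h4 : b = 0 := (Submodule.mem_bot F).1 h3
  rw [← hab, h4, add_zero]
  exact ha

section

variable {F : Type} [Field F] {X : Type} {k : ℕ} {I Θ : Type} (P : I → Set (X → X → F))
  (nn : Θ → ℕ) (D : ∀ θ, (Fin (nn θ) → X) → F)

/-- products of pairings and determinants, with the list of their types -/
inductive Tp : Multiset Θ → Multiset I → Finset (Fin k) → ((Fin k → X) → F) → Prop
  | one : Tp 0 0 ∅ fun _ => 1
  | pair {M : Multiset Θ} {C : Multiset I} {A : Finset (Fin k)} {f : (Fin k → X) → F} (i : I)
      (b : X → X → F) (hb : b ∈ P i) (j j' : Fin k)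
      (hne : j ≠ j') (hj : j ∉ A) (hj' : j' ∉ A) (h : Tp M C A f) :
      Tp M (i ::ₘ C) (insert j (insert j' A)) fun v => b (v j) (v j') * f v
  | det {M : Multiset Θ} {C : Multiset I} {A : Finset (Fin k)} {f : (Fin k → X) → F} (θ : Θ)
      (e : Fin (nn θ) ↪ Fin k) (hA : ∀ l, e l ∉ A) (h : Tp M C A f) :
      Tp (θ ::ₘ M) C (univ.map e ∪ A) fun v => D θ (fun l => v (e l)) * f v

variable {P nn D}

/-- the products are eigenfunctions -/
theorem Tp.eig {G : X → X} {μ : I → F} {α : Θ → F}
    (hP : ∀ i, ∀ b ∈ P i, ∀ x y, b (G x) (G y) = μ i * b x y)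
    (hD : ∀ θ x, D θ (fun l => G (x l)) = α θ * D θ x)
    {M : Multiset Θ} {C : Multiset I} {A : Finset (Fin k)} {f : (Fin k → X) → F}
    (h : Tp P nn D M C A f) (v : Fin k → X) :
    f (fun j => G (v j)) = ((M.map α).prod * (C.map μ).prod) * f v := by
  induction h with
  | one => simp
  | pair i b hb j j' hne hj hj' h ih =>
    show b _ _ * _ = _
    rw [hP i b hb, ih, Multiset.map_cons, Multiset.prod_cons]
    ring
  | det θ e hA h ih =>
    show D θ _ * _ = _
    rw [hD θ fun l => v (e l), ih, Multiset.map_cons, Multiset.prod_cons]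
    ring

/-- extraction of a determinant -/
theorem Tp.extract [DecidableEq Θ] {M : Multiset Θ} {C : Multiset I} {A : Finset (Fin k)}
    {f : (Fin k → X) → F} (h : Tp P nn D M C A f) {θ : Θ} (hθ : θ ∈ M) :
    ∃ (A' : Finset (Fin k)) (f' : (Fin k → X) → F) (e : Fin (nn θ) ↪ Fin k),
      A = univ.map e ∪ A' ∧ (∀ l, e l ∉ A') ∧ Tp P nn D (M.erase θ) C A' f' ∧
      f = fun v => D θ (fun l => v (e l)) * f' v := by
  induction h with
  | one => exact absurd hθ (Multiset.notMem_zero θ)
  | @pair M C A f i b hb j j' hne hj hj' h ih =>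
    obtain ⟨A', f', e, rfl, he, h', rfl⟩ := ih hθ
    rw [mem_union, not_or] at hj hj'
    have hje : ∀ l, e l ≠ j := fun l h0 => hj.1 (h0 ▸ mem_map_of_mem e (mem_univ l))
    have hje' : ∀ l, e l ≠ j' := fun l h0 => hj'.1 (h0 ▸ mem_map_of_mem e (mem_univ l))
    refine ⟨insert j (insert j' A'), _, e, ?_, fun l => ?_,
      Tp.pair i b hb j j' hne hj.2 hj'.2 h', ?_⟩
    · ext x
      simp only [mem_insert, mem_union]
      tauto
    · rw [mem_insert, mem_insert, not_or, not_or]
      exact ⟨hje l, hje' l, he l⟩
    · funext v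
      ring
  | @det M C A f θ' e' hA h ih =>
    by_cases hθ' : θ = θ'
    · subst hθ'
      refine ⟨A, f, e', rfl, hA, ?_, rfl⟩
      rw [Multiset.erase_cons_head]
      exact h
    · have h1 : θ ∈ M := (Multiset.mem_cons.1 hθ).resolve_left hθ'
      obtain ⟨A', f', e, rfl, he, h', rfl⟩ := ih h1
      have h2 : ∀ l l', e' l ≠ e l' := fun l l' h0 => hA l (mem_union_left _
        (h0 ▸ mem_map_of_mem e (mem_univ l')))
      refine ⟨univ.map e' ∪ A', fun v => D θ' (fun l => v (e' l)) * f' v, e, ?_, fun l => ?_,
        ?_, ?_⟩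
      · rw [← union_assoc, union_comm (univ.map e') (univ.map e), union_assoc]
      · rw [mem_union, not_or]
        refine ⟨fun h0 => ?_, he l⟩
        obtain ⟨l', -, hl'⟩ := mem_map.1 h0
        exact h2 l' l hl'
      · rw [Multiset.erase_cons_tail M (Ne.symm hθ')]
        exact Tp.det θ' e' (fun l h0 => hA l (mem_union_right _ h0)) h'
      · funext v
        ring

/-- products without determinants -/
theorem Tp.prd {M : Multiset Θ} {C : Multiset I} {A : Finset (Fin k)} {f : (Fin k → X) → F}
    (h : Tp P nn D M C A f) (hM : M = 0) : Prd (⋃ i, P i) (fun _ => ∅) A f := by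
  induction h with
  | one => exact Prd.one
  | pair i b hb j j' hne hj hj' h ih =>
    exact Prd.pair b (Set.mem_iUnion.2 ⟨i, hb⟩) j j' hne hj hj' (ih hM)
  | det θ e hA h ih => exact absurd hM (Multiset.cons_ne_zero)

/-- products in which the determinants occur in pairs -/
theorem Tp.reduce [DecidableEq Θ] {star : Θ → Θ} (hss : ∀ θ, star (star θ) = θ)
    (hne : ∀ θ, star θ ≠ θ)
    (hpair : ∀ (θ : Θ) (e : Fin (nn θ) ↪ Fin k) (e' : Fin (nn (star θ)) ↪ Fin k),
      (∀ l l', e l ≠ e' l') →
      (fun v : Fin k → X => D θ (fun l => v (e l)) * D (star θ) (fun l => v (e' l))) ∈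
        prdSpan (⋃ i, P i) (fun _ => ∅) (univ.map e ∪ univ.map e')) (d : ℕ) :
    ∀ {M : Multiset Θ} {C : Multiset I} {A : Finset (Fin k)} {f : (Fin k → X) → F},
      M.card = d → Tp P nn D M C A f → (∀ θ, M.count θ = M.count (star θ)) →
      f ∈ prdSpan (⋃ i, P i) (fun _ => ∅) A := by
  induction d using Nat.strong_induction_on with
  | _ d ih =>
    intro M C A f hd h hbal
    by_cases hM : M = 0
    · exact Submodule.subset_span (h.prd hM)
    · obtain ⟨θ, hθ⟩ := Multiset.exists_mem_of_ne_zero hM
      have hθ' : star θ ∈ M := by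
        rw [← Multiset.one_le_count_iff_mem, ← hbal, Multiset.one_le_count_iff_mem]
        exact hθ
      have hθ'' : star θ ∈ M.erase θ := (Multiset.mem_erase_of_ne (hne θ)).2 hθ'
      obtain ⟨A', f', e, rfl, he, h', rfl⟩ := h.extract hθ
      obtain ⟨A'', f'', e', rfl, he', h'', rfl⟩ := h'.extract hθ''
      have hcard : ((M.erase θ).erase (star θ)).card < d := by
        have h1 := Multiset.card_erase_lt_of_mem hθ
        have h2 := Multiset.card_erase_lt_of_mem hθ''
        omega
      have hb : ∀ η, ((M.erase θ).erase (star θ)).count η =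
          ((M.erase θ).erase (star θ)).count (star η) := by
        intro η
        have h1 : ∀ η, ((M.erase θ).erase (star θ)).count η =
            M.count η - (if η = θ then 1 else 0) - (if η = star θ then 1 else 0) := by
          intro η
          by_cases h1 : η = star θ
          · subst h1
            rw [Multiset.count_erase_self, Multiset.count_erase_of_ne (hne θ), if_neg (hne θ),
              if_pos rfl, Nat.sub_zero]
          · rw [Multiset.count_erase_of_ne h1, if_neg h1, Nat.sub_zero]
            by_cases h2 : η = θ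
            · subst h2
              rw [Multiset.count_erase_self, if_pos rfl]
            · rw [Multiset.count_erase_of_ne h2, if_neg h2, Nat.sub_zero]
        rw [h1, h1, hbal η]
        have e1 : (star η = θ) ↔ (η = star θ) := by
          constructor
          · rintro rfl
            exact (hss η).symm
          · rintro rfl
            exact hss θ
        have e2 : (star η = star θ) ↔ (η = θ) := by
          constructor
          · intro h2
            rw [← hss η, h2, hss]
          · rintro rfl
            rfl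
        simp only [e1, e2]
        omega
      have h1 := ih _ hcard rfl h'' hb
      have hee : ∀ l l', e l ≠ e' l' := fun l l' h0 => he l (mem_union_left _
        (h0 ▸ mem_map_of_mem e' (mem_univ l')))
      have h2 := hpair θ e e' hee
      have h3 := prdSpan_mul h2 h1 (by
        rw [disjoint_union_left, Finset.disjoint_left, Finset.disjoint_left]
        constructor
        · intro x hx
          obtain ⟨l, -, rfl⟩ := mem_map.1 hx
          exact fun h0 => he l (mem_union_right _ h0)
        · intro x hx
          obtain ⟨l, -, rfl⟩ := mem_map.1 hx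
          exact he' l)
      rw [← union_assoc]
      have h4 : (fun v : Fin k → X => D θ (fun l => v (e l)) *
          (D (star θ) (fun l => v (e' l)) * f'' v)) =
          (fun v : Fin k → X => D θ (fun l => v (e l)) * D (star θ) (fun l => v (e' l))) * f'' := by
        funext v
        exact (mul_assoc _ _ _).symm
      rw [h4]
      exact h3

end

/-- from the smaller to the bigger field -/
theorem up_prd {K F : Type} [Field K] [Field F] [Algebra K F] {X : Type} {k : ℕ} {I Θ : Type}
    {P : I → Set (X → X → F)} {nn : Θ → ℕ} {D : ∀ θ, (Fin (nn θ) → X) → F}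
    {P' : Set (X → X → K)} {D' : ∀ m : ℕ, Set ((Fin m → X) → K)}
    (hP : ∀ b ∈ P', ∃ i, (fun x y => algebraMap K F (b x y)) ∈ P i)
    (hD : ∀ m, ∀ δ ∈ D' m, ∃ (d : ℕ) (c : Fin d → F) (θ : Fin d → Θ) (h : ∀ j, m = nn (θ j)),
      ∀ x, algebraMap K F (δ x) = ∑ j, c j * D (θ j) (fun l => x (Fin.cast (h j).symm l)))
    {A : Finset (Fin k)} {f : (Fin k → X) → K} (hf : Prd P' D' A f) :
    (fun v => algebraMap K F (f v)) ∈
      Submodule.span F {g | ∃ M C, Tp P nn D M C A g} := by
  induction hf with
  | one =>
    refine Submodule.subset_span ⟨0, 0, ?_⟩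
    simp only [map_one]
    exact Tp.one
  | @pair A f b hb j j' hne hj hj' hf ih =>
    obtain ⟨i, hi⟩ := hP b hb
    have h1 : (fun v : Fin k → X => algebraMap K F (b (v j) (v j') * f v)) =
        mulF (fun v => algebraMap K F (b (v j) (v j'))) fun v => algebraMap K F (f v) := by
      funext v
      exact map_mul _ _ _
    rw [h1]
    have h2 := Submodule.mem_map_of_mem (f := mulF (fun v : Fin k → X =>
      algebraMap K F (b (v j) (v j')))) ih
    rw [Submodule.map_span] at h2
    refine Submodule.span_mono ?_ h2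
    rintro _ ⟨g, ⟨M, C, hg⟩, rfl⟩
    exact ⟨M, i ::ₘ C, Tp.pair i _ hi j j' hne hj hj' hg⟩
  | @det A f m δ hδ e hA hf ih =>
    obtain ⟨d, c, θ, h, hδθ⟩ := hD m δ hδ
    have h1 : (fun v : Fin k → X => algebraMap K F (δ (fun l => v (e l)) * f v)) =
        ∑ j, c j • mulF (fun v => D (θ j) (fun l => v (e (Fin.cast (h j).symm l))))
          fun v => algebraMap K F (f v) := by
      funext v
      rw [map_mul, hδθ, Finset.sum_mul, Finset.sum_apply]
      refine Finset.sum_congr rfl fun j _ => ?_
      rw [Pi.smul_apply, smul_eq_mul]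
      exact mul_assoc _ _ _
    rw [h1]
    refine Submodule.sum_mem _ fun j _ => Submodule.smul_mem _ _ ?_
    have h2 := Submodule.mem_map_of_mem (f := mulF (fun v : Fin k → X =>
      D (θ j) (fun l => v (e (Fin.cast (h j).symm l))))) ih
    rw [Submodule.map_span] at h2
    refine Submodule.span_mono ?_ h2
    rintro _ ⟨g, ⟨M, C, hg⟩, rfl⟩
    refine ⟨θ j ::ₘ M, C, ?_⟩
    have h3 := Tp.det (P := P) (nn := nn) (D := D) (θ j)
      ((finCongr (h j).symm).toEmbedding.trans e) (fun l => hA _) hg
    have h4 : (univ.map ((finCongr (h j).symm).toEmbedding.trans e)) = univ.map e := by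
      rw [← Finset.map_map, Finset.map_univ_equiv]
    rw [h4] at h3
    exact h3

end Pool.Agent.X274.DI
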