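import Pool.Agent.X274.DI.Char
import Pool.Agent.X274.DI.Tp

/-!
# Tate classes of motives with independent determinants, linear algebra
-/

set_option autoImplicit false
set_option linter.unusedSectionVars false

open Matrix Finset
open Pool.Agent.Y142.ZO (bil)
open Pool.Agent.Y142.SU (Herm)
open Pool.Agent.Y710.SV
open Pool.Agent.X274.DT
open Pool.Agent.Y177.SU
open Pool.Agent.X274.SU (exists_star E_idem E_ne)

namespace Pool.Agent.X274.DI

/-- products over matchings -/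
theorem prd_matching {F : Type} [Field F] {X : Type} {k n : ℕ} {P : Set (X → X → F)}
    {D : ∀ m : ℕ, Set ((Fin m → X) → F)} {b : X → X → F} (hb : b ∈ P) (e e' : Fin n ↪ Fin k)
    (hee : ∀ l l', e l ≠ e' l') (s : Finset (Fin n)) :
    Prd P D (s.map e ∪ s.map e') fun v => ∏ m ∈ s, b (v (e m)) (v (e' m)) := by
  induction s using Finset.induction_on with
  | empty =>
    simp only [map_empty, union_empty, prod_empty]
    exact Prd.one
  | insert m s hm ih =>
    have h1 : (insert m s).map e ∪ (insert m s).map e' =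
        insert (e m) (insert (e' m) (s.map e ∪ s.map e')) := by
      rw [map_insert, map_insert]
      ext x
      simp only [mem_insert, mem_union]
      tauto
    rw [h1]
    simp only [prod_insert hm]
    have hme : ∀ {x : Fin k}, x ∈ s.map e ↔ ∃ l ∈ s, e l = x := by simp
    refine Prd.pair b hb (e m) (e' m) (hee m m) ?_ ?_ ih
    · rw [mem_union, not_or, mem_map, mem_map]
      exact ⟨fun ⟨l, hl, h⟩ => hm (e.injective h ▸ hl), fun ⟨l, hl, h⟩ => hee m l h.symm⟩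
    · rw [mem_union, not_or, mem_map, mem_map]
      exact ⟨fun ⟨l, hl, h⟩ => hee l m h, fun ⟨l, hl, h⟩ => hm (e'.injective h ▸ hl)⟩

/-- determinants of pairings -/
theorem det_matching {F : Type} [Field F] {X : Type} {k n : ℕ} {P : Set (X → X → F)}
    {D : ∀ m : ℕ, Set ((Fin m → X) → F)} {b : X → X → F} (hb : b ∈ P) (e e' : Fin n ↪ Fin k)
    (hee : ∀ l l', e l ≠ e' l') :
    (fun v : Fin k → X => (Matrix.of fun m l => b (v (e m)) (v (e' l))).det) ∈
      prdSpan P D (univ.map e ∪ univ.map e') := by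
  have h1 : (fun v : Fin k → X => (Matrix.of fun m l => b (v (e m)) (v (e' l))).det) =
      ∑ π : Equiv.Perm (Fin n), ((Equiv.Perm.sign π : ℤ) : F) •
        fun v : Fin k → X => ∏ m ∈ univ, b (v ((π.toEmbedding.trans e) m)) (v (e' m)) := by
    funext v
    rw [Matrix.det_apply', Finset.sum_apply]
    rfl
  rw [h1]
  refine Submodule.sum_mem _ fun π _ => Submodule.smul_mem _ _ (Submodule.subset_span ?_)
  have h2 := prd_matching (D := D) hb (π.toEmbedding.trans e) e' (fun l l' => hee _ l') univ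
  have h3 : univ.map (π.toEmbedding.trans e) = univ.map e := by
    rw [← Finset.map_map, Finset.map_univ_equiv]
  rw [h3] at h2
  exact h2

variable {K : Type} [Field K] [CharZero K] {I : Type} {N n : I → ℕ} {k : ℕ}
  {Ω : Type} [Field Ω] [Algebra K Ω] [CharZero Ω]

theorem pair_up {N : ℕ} (A J : Matrix (Fin N) (Fin N) K) (x y : Fin N → K) :
    (up Ω A *ᵥ upv Ω x) ⬝ᵥ up Ω J *ᵥ upv Ω y = algebraMap K Ω ((A *ᵥ x) ⬝ᵥ J *ᵥ y) := by
  rw [up_mulVec, up_mulVec]
  unfold dotProduct upv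
  rw [map_sum]
  exact Finset.sum_congr rfl fun b _ => by rw [map_mul]

omit [CharZero Ω] in
theorem sim_pair {N : ℕ} {G J : Matrix (Fin N) (Fin N) Ω} {c : Ω} (h : Gᵀ * J * G = c • J)
    (x y : Fin N → Ω) : (G *ᵥ x) ⬝ᵥ J *ᵥ (G *ᵥ y) = c * (x ⬝ᵥ J *ᵥ y) := by
  have h1 : (G *ᵥ x) ⬝ᵥ J *ᵥ (G *ᵥ y) = x ⬝ᵥ (Gᵀ * J * G) *ᵥ y := by
    rw [← mulVec_mulVec, ← mulVec_mulVec, dotProduct_mulVec x Gᵀ, vecMul_transpose]
  rw [h1, h, smul_mulVec, dotProduct_smul, smul_eq_mul]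

/-- the pairings over the bigger field -/
def PU (J : ∀ i, Matrix (Fin (N i)) (Fin (N i)) K)
    (𝒞 : ∀ i, Subalgebra K (Matrix (Fin (N i)) (Fin (N i)) K)) (Ω : Type) [Field Ω] [Algebra K Ω]
    (i : I) : Set ((∀ i, Fin (N i) → K) → (∀ i, Fin (N i) → K) → Ω) :=
  {b | ∃ A ∈ bc (𝒞 i) Ω, b = fun x y => (A *ᵥ upv Ω (x i)) ⬝ᵥ up Ω (J i) *ᵥ upv Ω (y i)}

/-- **Only pairings**: an eigenvector of an operator, in the span of the products of pairings and
determinants, is in the span of the products of pairings, if the eigenvalues of the operator on the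
determinants are independent -/
theorem only_pairings [IsAlgClosed Ω] {J : ∀ i, Matrix (Fin (N i)) (Fin (N i)) K}
    {𝒞 : ∀ i, Subalgebra K (Matrix (Fin (N i)) (Fin (N i)) K)} {al : I → Prop}
    (hn : ∀ i, 0 < n i) (hdet : ∀ i, (J i).det ≠ 0)
    (hcomm : ∀ i, ∀ A ∈ 𝒞 i, ∀ B ∈ 𝒞 i, A * B = B * A)
    (hred : ∀ i, ∀ A ∈ 𝒞 i, IsNilpotent A → A = 0)
    (htr : ∀ i, ∀ A : 𝒞 i, (A : Matrix (Fin (N i)) (Fin (N i)) K).trace =
      (n i : K) * LinearMap.trace K (𝒞 i) (LinearMap.mulLeft K A))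
    (hH : ∀ i, al i → Herm (J i) (𝒞 i))
    {E : I → Type} [∀ i, Field (E i)] (ε : ∀ i, E i →+* Matrix (Fin (N i)) (Fin (N i)) K)
    (hε : ∀ i a, ε i a ∈ 𝒞 i) (hspan : ∀ i, ∀ A ∈ 𝒞 i, A ∈ Submodule.span K (Set.range (ε i)))
    (bar : ∀ i, E i →+* E i) (hbar : ∀ i a, (ε i a)ᵀ * J i = J i * ε i (bar i a))
    (G : ∀ i, Matrix (Fin (N i)) (Fin (N i)) K) (hGC : ∀ i, ∀ A ∈ 𝒞 i, A * G i = G i * A)
    (μ : I → K) (hμ : ∀ i, (G i)ᵀ * J i * G i = μ i • J i) (d : ∀ i, E i)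
    (hd : ∀ i, al i → ∀ ω : (Fin (N i) → K) [⋀^Fin (n i)]→ₗ[K] K,
      (∀ A ∈ 𝒞 i, ∀ (x : Fin (n i) → Fin (N i) → K) (l l' : Fin (n i)),
        ω (Function.update x l (A *ᵥ x l)) = ω (Function.update x l' (A *ᵥ x l'))) →
      ∀ x l, ω (fun j => G i *ᵥ x j) = ω (Function.update x l (ε i (d i) *ᵥ x l)))
    (e : ℕ) (lam : K)
    (hcond : ∀ (T : Multiset (Σ i, (E i →+* Ω))) (C : Multiset I), (∀ p ∈ T, al p.1) →
      ((T.map fun p => p.2 (d p.1)).prod * (C.map fun i => algebraMap K Ω (μ i)).prod) ^ e =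
        algebraMap K Ω lam →
      ∀ (i : I) (τ τ' : E i →+* Ω), τ' = τ.comp (bar i) →
        ∀ [DecidableEq (Σ i, (E i →+* Ω))], T.count ⟨i, τ⟩ = T.count ⟨i, τ'⟩)
    {f : (Fin k → ∀ i, Fin (N i) → K) → K}
    (hf : f ∈ prdSpan (PX fun i => PP (J i) (𝒞 i)) (DX fun i => DD (𝒞 i) (n i) (al i)) univ)
    (hfG : ∀ v, f (fun j => (fun x i => G i *ᵥ x i)^[e] (v j)) = lam * f v) :
    f ∈ prdSpan (PX fun i => PP (J i) (𝒞 i)) (fun _ => ∅) univ := by
  classical
  have hdetΩ : ∀ i, (up Ω (J i)).det ≠ 0 := by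
    intro i
    have h1 : (up Ω (J i)).det = algebraMap K Ω (J i).det := (RingHom.map_det _ _).symm
    rw [h1]
    exact fun h => hdet i ((algebraMap K Ω).injective (by rw [h, map_zero]))
  have hΦ : ∀ i, Nonempty (Frm (up Ω (J i)) (bc (𝒞 i) Ω) (n i)) := fun i =>
    exists_frm (n := n i) (hdetΩ i) (bc_comm (hcomm i)) (bc_red (hcomm i) (hred i))
      (bc_rank (hred i) (htr i))
  let Φ : ∀ i, Frm (up Ω (J i)) (bc (𝒞 i) Ω) (n i) := fun i => (hΦ i).some
  have hcard : ∀ i t, (blk (Φ i).κ t).card = n i := by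
    intro i t
    have h1 := bc_exact (Ω := Ω) (hcomm i) (hred i) (htr i) _ ((Φ i).mem t) (E_idem (Φ i) t)
      (E_ne (Φ i) (hn i) t) fun A hA => (Φ i).eig A hA t
    rw [trace_E] at h1
    exact_mod_cast h1
  choose star hst hss hsn using fun i : {i // al i} =>
    exists_star (Φ i.1) (hn i.1) (bc_herm (hH i.1 i.2))
  -- the types
  let Θ : Type := Σ i : {i // al i}, (Φ i.1).T
  let nn : Θ → ℕ := fun θ => n θ.1.1
  let D : ∀ θ, (Fin (nn θ) → ∀ i, Fin (N i) → K) → Ω := fun θ x =>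
    Dt (Φ θ.1.1) (hcard θ.1.1) θ.2 fun l => upv Ω (x l θ.1.1)
  let st : Θ → Θ := fun θ => ⟨θ.1, star θ.1 θ.2⟩
  let pt : Θ → Σ i, (E i →+* Ω) := fun θ =>
    ⟨θ.1.1, chr (Φ θ.1.1) (hn θ.1.1) (ε θ.1.1) (hε θ.1.1) θ.2⟩
  have hpt : Function.Injective pt := by
    rintro ⟨⟨i, hi⟩, t⟩ ⟨⟨j, hj⟩, s⟩ h
    have h1 : i = j := congrArg Sigma.fst h
    subst h1
    have h2 := eq_of_heq (Sigma.mk.inj_iff.1 h).2
    have h3 : t = s := chr_inj (Φ i) (hn i) (ε i) (hε i) (hspan i) h2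
    subst h3
    rfl
  have hpst : ∀ θ, (pt (st θ)).2 = (pt θ).2.comp (bar θ.1.1) := fun θ =>
    chr_star (Φ θ.1.1) (hn θ.1.1) (ε θ.1.1) (hε θ.1.1) (hst θ.1) (hss θ.1)
      (bc_comm (hcomm θ.1.1)) (hdetΩ θ.1.1) (hbar θ.1.1) θ.2
  -- to the bigger field
  have h0 : ∀ f ∈ prdSpan (k := k) (PX fun i => PP (J i) (𝒞 i))
      (DX fun i => DD (𝒞 i) (n i) (al i)) univ, (fun v => algebraMap K Ω (f v)) ∈
      Submodule.span Ω {g | ∃ M C, Tp (k := k) (PU J 𝒞 Ω) nn D M C univ g} := by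
    intro f hf
    unfold prdSpan at hf
    induction hf using Submodule.span_induction with
    | mem f hf =>
      refine up_prd ?_ ?_ hf
      · rintro b ⟨i, b', ⟨a, ha, hab⟩, rfl⟩
        refine ⟨i, up Ω a, up_mem ha, ?_⟩
        funext x y
        show algebraMap K Ω (b' (x i) (y i)) = _
        rw [hab, pair_up]
      · rintro m δ ⟨i, δ', hδ', rfl⟩
        obtain ⟨hm, hal, hω⟩ := hδ'
        subst hm
        obtain ⟨c, hc⟩ := DD_sum (al := al i) (Φ i) (hcard i) (hn i) (δ := δ') ⟨rfl, hal, hω⟩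
        let q := Fintype.equivFin (Φ i).T
        refine ⟨Fintype.card (Φ i).T, fun j => c (q.symm j), fun j => ⟨⟨i, hal⟩, q.symm j⟩,
          fun _ => rfl, fun x => ?_⟩
        rw [hc]
        exact (Equiv.sum_comp q.symm fun t => c t *
          Dt (Φ i) (hcard i) t fun l => upv Ω (x l i)).symm
    | zero =>
      have : (fun v : Fin k → ∀ i, Fin (N i) → K => algebraMap K Ω
          ((0 : (Fin k → ∀ i, Fin (N i) → K) → K) v)) = 0 := by
        funext v
        exact map_zero _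
      rw [this]
      exact Submodule.zero_mem _
    | add f g _ _ h1 h2 =>
      have : (fun v : Fin k → ∀ i, Fin (N i) → K => algebraMap K Ω ((f + g) v)) =
          (fun v => algebraMap K Ω (f v)) + fun v => algebraMap K Ω (g v) := by
        funext v
        exact map_add _ _ _
      rw [this]
      exact Submodule.add_mem _ h1 h2
    | smul a f _ h1 =>
      have : (fun v : Fin k → ∀ i, Fin (N i) → K => algebraMap K Ω ((a • f) v)) =
          algebraMap K Ω a • fun v => algebraMap K Ω (f v) := by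
        funext v
        exact map_mul _ _ _
      rw [this]
      exact Submodule.smul_mem _ _ h1
  have h1 := h0 f hf
  -- the eigenvalues
  let Gx : (∀ i, Fin (N i) → K) → ∀ i, Fin (N i) → K := fun x i => G i *ᵥ x i
  let α : Θ → Ω := fun θ => (pt θ).2 (d θ.1.1)
  have hP : ∀ i, ∀ b ∈ PU J 𝒞 Ω i, ∀ x y, b (Gx x) (Gx y) = algebraMap K Ω (μ i) * b x y := by
    rintro i _ ⟨A, hA, rfl⟩ x y
    show (A *ᵥ upv Ω (G i *ᵥ x i)) ⬝ᵥ up Ω (J i) *ᵥ upv Ω (G i *ᵥ y i) = _
    have hAG : A * up Ω (G i) = up Ω (G i) * A := by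
      have hA' : A ∈ Submodule.span Ω (up Ω '' (𝒞 i : Set (Matrix (Fin (N i)) (Fin (N i)) K))) :=
        hA
      clear hA
      induction hA' using Submodule.span_induction with
      | mem M hM =>
        obtain ⟨A, hA, rfl⟩ := hM
        rw [← up_mul, hGC i A hA, up_mul]
      | zero => rw [zero_mul, mul_zero]
      | add A B _ _ h1 h2 => rw [add_mul, mul_add, h1, h2]
      | smul a A _ h1 => rw [smul_mul_assoc, mul_smul_comm, h1]
    have hJG : (up Ω (G i))ᵀ * up Ω (J i) * up Ω (G i) = algebraMap K Ω (μ i) • up Ω (J i) := by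
      rw [← up_transpose, ← up_mul, ← up_mul, hμ, up_smul]
    rw [← up_mulVec, ← up_mulVec, mulVec_mulVec, hAG, ← mulVec_mulVec, sim_pair hJG]
  have hD : ∀ θ x, D θ (fun l => Gx (x l)) = α θ * D θ x := by
    intro θ x
    exact Dt_eig (Φ θ.1.1) (hcard θ.1.1) (hn θ.1.1) (hd θ.1.1 θ.1.2)
      (fun t => chr_spec (Φ θ.1.1) (hn θ.1.1) (ε θ.1.1) (hε θ.1.1) t (d θ.1.1)) θ.2
      fun l => x l θ.1.1
  let L : Module.End Ω ((Fin k → ∀ i, Fin (N i) → K) → Ω) :=
    { toFun := fun g v => g fun j => Gx^[e] (v j)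
      map_add' := fun _ _ => rfl
      map_smul' := fun _ _ => rfl }
  have hL : ∀ M C g, Tp (PU J 𝒞 Ω) nn D M C univ g →
      L g = ((M.map α).prod * (C.map fun i => algebraMap K Ω (μ i)).prod) ^ e • g := by
    intro M C g hg
    have h2 : ∀ (m : ℕ) v, g (fun j => Gx^[m] (v j)) =
        ((M.map α).prod * (C.map fun i => algebraMap K Ω (μ i)).prod) ^ m * g v := by
      intro m
      induction m with
      | zero => intro v; simp
      | succ m ih =>
        intro v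
        have h3 : (fun j => Gx^[m + 1] (v j)) = fun j => Gx^[m] (Gx (v j)) := by
          funext j
          rw [Function.iterate_succ_apply]
        rw [h3, ih, Tp.eig hP hD hg, pow_succ]
        ring
    funext v
    exact h2 e v
  have h2 := mem_span_eigen L _ (fun g hg => by
    obtain ⟨M, C, hg⟩ := hg
    exact ⟨_, hL M C g hg⟩) (algebraMap K Ω lam) h1 (by
    funext v
    show algebraMap K Ω (f _) = algebraMap K Ω lam * algebraMap K Ω (f v)
    rw [← map_mul, ← hfG v])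
  -- only pairings
  have h3 : (fun v => algebraMap K Ω (f v)) ∈ prdSpan (⋃ i, PU J 𝒞 Ω i) (fun _ => ∅) univ := by
    refine Submodule.span_le.2 ?_ h2
    rintro g ⟨⟨M, C, hg⟩, hLg⟩
    by_cases hg0 : g = 0
    · rw [hg0]
      exact Submodule.zero_mem _
    · have h4 : ((M.map α).prod * (C.map fun i => algebraMap K Ω (μ i)).prod) ^ e =
          algebraMap K Ω lam := by
        rw [hL M C g hg] at hLg
        have h5 : ((((M.map α).prod * (C.map fun i => algebraMap K Ω (μ i)).prod) ^ e) -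
            algebraMap K Ω lam) • g = 0 := by rw [sub_smul, hLg, sub_self]
        exact sub_eq_zero.1 ((smul_eq_zero.1 h5).resolve_right hg0)
      have h5 : ∀ θ, M.count θ = M.count (st θ) := by
        intro θ
        have h6 := hcond (M.map pt) C (fun p hp => by
          obtain ⟨η, -, rfl⟩ := Multiset.mem_map.1 hp
          exact η.1.2) (by
          rw [Multiset.map_map]
          exact h4) θ.1.1 (pt θ).2 (pt (st θ)).2 (hpst θ)
        rw [← Multiset.count_map_eq_count' pt M hpt, ← Multiset.count_map_eq_count' pt M hpt]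
        exact h6
      refine Tp.reduce (star := st) (fun θ => ?_) (fun θ h => ?_) ?_ _ rfl hg h5
      · show (⟨θ.1, star θ.1 (star θ.1 θ.2)⟩ : Θ) = θ
        rw [hss]
      · have h6 := eq_of_heq (Sigma.mk.inj_iff.1 h).2
        exact hsn θ.1 θ.2 h6
      · intro θ e e' hee
        obtain ⟨c, hc⟩ := Dt_pair (Φ θ.1.1) (hcard θ.1.1) (hst θ.1) (hss θ.1) θ.2
        have h6 : (fun v : Fin k → ∀ i, Fin (N i) → K =>
            D θ (fun l => v (e l)) * D (st θ) (fun l => v (e' l))) =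
            c • fun v => (Matrix.of fun m l => (fun x y : ∀ i, Fin (N i) → K =>
              ((Φ θ.1.1).E θ.2 *ᵥ upv Ω (x θ.1.1)) ⬝ᵥ up Ω (J θ.1.1) *ᵥ upv Ω (y θ.1.1))
                (v (e m)) (v (e' l))).det := by
          funext v
          exact hc (fun l => upv Ω (v (e l) θ.1.1)) fun l => upv Ω (v (e' l) θ.1.1)
        rw [h6]
        have h7 : (fun x y : ∀ i, Fin (N i) → K =>
            ((Φ θ.1.1).E θ.2 *ᵥ upv Ω (x θ.1.1)) ⬝ᵥ up Ω (J θ.1.1) *ᵥ upv Ω (y θ.1.1)) ∈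
            ⋃ i, PU J 𝒞 Ω i :=
          Set.mem_iUnion.2 ⟨θ.1.1, (Φ θ.1.1).E θ.2, (Φ θ.1.1).mem θ.2, rfl⟩
        exact Submodule.smul_mem _ _ (det_matching h7 e e' hee)
  -- descent
  obtain ⟨r, hr⟩ := LinearMap.exists_leftInverse_of_injective (Algebra.linearMap K Ω)
    (LinearMap.ker_eq_bot.2 (algebraMap K Ω).injective)
  have hP' : ∀ b ∈ ⋃ i, PU J 𝒞 Ω i, ∃ (d : ℕ) (c : Fin d → Ω)
      (b' : Fin d → (∀ i, Fin (N i) → K) → (∀ i, Fin (N i) → K) → K),
      (∀ j, b' j ∈ PX fun i => PP (J i) (𝒞 i)) ∧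
      ∀ x y, b (id x) (id y) = ∑ j, c j * algebraMap K Ω (b' j x y) := by
    intro b hb
    obtain ⟨i, A, hA, rfl⟩ := Set.mem_iUnion.1 hb
    obtain ⟨c, hc⟩ := coords (Module.finBasis K (𝒞 i)) hA
    refine ⟨_, c, fun j x y => (((Module.finBasis K (𝒞 i) j : 𝒞 i) :
        Matrix (Fin (N i)) (Fin (N i)) K) *ᵥ x i) ⬝ᵥ J i *ᵥ y i, fun j => ⟨i,
          fun x y => (((Module.finBasis K (𝒞 i) j : 𝒞 i) :
            Matrix (Fin (N i)) (Fin (N i)) K) *ᵥ x) ⬝ᵥ J i *ᵥ y,
          ⟨_, (Module.finBasis K (𝒞 i) j).2, fun _ _ => rfl⟩, rfl⟩, fun x y => ?_⟩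
    show (A *ᵥ upv Ω (x i)) ⬝ᵥ up Ω (J i) *ᵥ upv Ω (y i) = _
    rw [hc, pairing]
  have h4 := desc_prdSpan (D' := fun _ => ∅) id hP'
    (fun m δ hδ => absurd hδ (Set.notMem_empty δ)) r h3 1
  have h5 : (fun v : Fin k → ∀ i, Fin (N i) → K => r (1 * (fun v => algebraMap K Ω (f v))
      fun j => id (v j))) = f := by
    funext v
    simp only [one_mul, id]
    exact LinearMap.congr_fun hr (f v)
  rw [h5] at h4
  exact h4

end Pool.Agent.X274.DI
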