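import Mathlib

/-!
# Transfer of a condition on complex embeddings to another algebraically closed field
-/

set_option autoImplicit false

namespace Pool.Agent.X274.DI

variable {I : Type} {E : I → Type} [∀ i, Field (E i)] [∀ i, Algebra ℚ (E i)]
  [∀ i, Algebra.IsAlgebraic ℚ (E i)] {Ω : Type} [Field Ω] [CharZero Ω]

theorem mem_alg {E : Type} [Field E] [Algebra ℚ E] [Algebra.IsAlgebraic ℚ E] (τ : E →+* Ω)
    (x : E) : τ x ∈ algebraicClosure ℚ Ω := by
  rw [mem_algebraicClosure_iff]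
  have h1 : IsAlgebraic ℚ x := Algebra.IsAlgebraic.isAlgebraic x
  obtain ⟨p, hp, hpx⟩ := h1
  refine ⟨p, hp, ?_⟩
  have h2 : Polynomial.aeval (τ x) p = τ (Polynomial.aeval x p) := by
    rw [Polynomial.aeval_def, Polynomial.aeval_def, Polynomial.hom_eval₂]
    congr 1
    exact Subsingleton.elim _ _
  rw [h2, hpx, map_zero]

theorem exists_hom (L : Type) [Field L] [Algebra ℚ L] [Algebra.IsAlgebraic ℚ L] :
    Nonempty (L →+* ℂ) := ⟨((IsAlgClosed.lift : L →ₐ[ℚ] ℂ) : L →+* ℂ)⟩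

/-- the embedding into the complex numbers -/
noncomputable def κ₀ (Ω : Type) [Field Ω] [CharZero Ω] : algebraicClosure ℚ Ω →+* ℂ :=
  (@exists_hom (algebraicClosure ℚ Ω) _ (algebraicClosure ℚ Ω).algebra'
    (algebraicClosure.isAlgebraic ℚ Ω)).some

noncomputable def toC {E : Type} [Field E] [Algebra ℚ E] [Algebra.IsAlgebraic ℚ E]
    (τ : E →+* Ω) : E →+* ℂ :=
  (κ₀ Ω).comp (τ.codRestrict (algebraicClosure ℚ Ω) fun x => mem_alg τ x)

theorem toC_inj {E : Type} [Field E] [Algebra ℚ E] [Algebra.IsAlgebraic ℚ E] :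
    Function.Injective (toC : (E →+* Ω) → (E →+* ℂ)) := by
  intro τ τ' h
  ext x
  have h1 := congrArg (fun f : E →+* ℂ => f x) h
  exact congrArg Subtype.val ((κ₀ Ω).injective h1)

theorem toC_comp {E : Type} [Field E] [Algebra ℚ E] [Algebra.IsAlgebraic ℚ E] (τ : E →+* Ω)
    (b : E →+* E) : toC (τ.comp b) = (toC τ).comp b := rfl

/-- the map on the pairs -/
noncomputable def toP (p : Σ i, (E i →+* Ω)) : Σ i, (E i →+* ℂ) := ⟨p.1, toC p.2⟩

theorem toP_inj : Function.Injective (toP : (Σ i, (E i →+* Ω)) → Σ i, (E i →+* ℂ)) := by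
  rintro ⟨i, τ⟩ ⟨j, τ'⟩ h
  have h1 : i = j := congrArg Sigma.fst h
  subst h1
  have h2 : toC τ = toC τ' := eq_of_heq (Sigma.mk.inj_iff.1 h).2
  rw [toC_inj h2]

theorem prod_toC (d : ∀ i, E i) (T : Multiset (Σ i, (E i →+* Ω))) (q : ℕ) (e : ℕ) (z : ℤ)
    (h : (T.map fun p => p.2 (d p.1)).prod ^ e = (q : Ω) ^ z) :
    ((T.map toP).map fun p => p.2 (d p.1)).prod ^ e = (q : ℂ) ^ z := by
  have h1 : ((T.map fun p => (⟨p.2 (d p.1), mem_alg p.2 (d p.1)⟩ :
      algebraicClosure ℚ Ω)).prod) ^ e = (q : algebraicClosure ℚ Ω) ^ z := by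
    apply Subtype.ext
    have h2 : (((T.map fun p => (⟨p.2 (d p.1), mem_alg p.2 (d p.1)⟩ :
        algebraicClosure ℚ Ω)).prod : algebraicClosure ℚ Ω) : Ω) =
        (T.map fun p => p.2 (d p.1)).prod := by
      have h3 := map_multiset_prod (algebraicClosure ℚ Ω).val (T.map fun p =>
        (⟨p.2 (d p.1), mem_alg p.2 (d p.1)⟩ : algebraicClosure ℚ Ω))
      rw [Multiset.map_map] at h3
      exact h3
    have h4 : ((((q : algebraicClosure ℚ Ω) ^ z) : algebraicClosure ℚ Ω) : Ω) = (q : Ω) ^ z := by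
      have h5 := map_zpow₀ (algebraicClosure ℚ Ω).val (q : algebraicClosure ℚ Ω) z
      rw [map_natCast] at h5
      exact h5
    rw [h4, ← h, ← h2]
    rfl
  have h2 := congrArg (κ₀ Ω) h1
  rw [map_pow, map_zpow₀, map_natCast, map_multiset_prod, Multiset.map_map] at h2
  rw [Multiset.map_map]
  exact h2

end Pool.Agent.X274.DI
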