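import Pool.Agent.X274.DI.Val
import Pool.Agent.X274.DI.Tp

/-!
# Products of rational pairings and similitudes of several weights
-/

set_option autoImplicit false
set_option linter.unusedSectionVars false

open Matrix Finset
open Pool.Agent.X274.DT

namespace Pool.Agent.X274.DI

variable {r : ℕ} {N : Fin (r + 1) → ℕ} {E : Fin (r + 1) → Type} {k : ℕ}
  {ε : ∀ i, E i → Matrix (Fin (N i)) (Fin (N i)) ℚ} {J : ∀ i, Matrix (Fin (N i)) (Fin (N i)) ℚ}
variable {A : Finset (Fin k)}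
  {F : ∀ (L : Type) [Field L] [CharZero L], (Fin k → ∀ i, Fin (N i) → L) → L}

/-- behaviour under similitudes of several weights which commute with the coefficients -/
theorem Val.simw (h : Val k ε J A F) (w : Fin (r + 1) → ℤ) :
    ∃ s : ℤ, ∀ (L : Type) [Field L] [CharZero L] (κ : L), κ ≠ 0 →
      ∀ G : ∀ i, Matrix (Fin (N i)) (Fin (N i)) L,
      (∀ i, (G i)ᵀ * cst L (J i) * G i = κ ^ w i • cst L (J i)) →
      (∀ i a, cst L (ε i a) * G i = G i * cst L (ε i a)) → ∀ v : Fin k → ∀ i, Fin (N i) → L,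
      F L (fun j i => G i *ᵥ v j i) = κ ^ s * F L v := by
  induction h with
  | one => exact ⟨0, fun L _ _ κ _ G _ _ v => by simp⟩
  | @pair A F i a j j' hne hj hj' h ih =>
    obtain ⟨s, hs⟩ := ih
    refine ⟨w i + s, fun L _ _ κ hκ G hG hε v => ?_⟩
    show ((cst L (ε i a) *ᵥ G i *ᵥ v j i) ⬝ᵥ cst L (J i) *ᵥ G i *ᵥ v j' i) * _ = _
    rw [hs L κ hκ G hG hε v]
    have h1 : ∀ x y : Fin (N i) → L, (G i *ᵥ x) ⬝ᵥ cst L (J i) *ᵥ (G i *ᵥ y) =
        κ ^ w i * (x ⬝ᵥ cst L (J i) *ᵥ y) := by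
      intro x y
      have h2 : x ⬝ᵥ ((G i)ᵀ * cst L (J i) * G i) *ᵥ y = κ ^ w i * (x ⬝ᵥ cst L (J i) *ᵥ y) := by
        rw [hG i, smul_mulVec, dotProduct_smul, smul_eq_mul]
      rw [← h2, ← mulVec_mulVec, ← mulVec_mulVec, dotProduct_mulVec x (G i)ᵀ, vecMul_transpose]
    rw [mulVec_mulVec, hε, ← mulVec_mulVec, h1, zpow_add₀ hκ]
    ring

end Pool.Agent.X274.DI
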