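import Pool.Agent.X274.DI.Val

/-!
# Products of rational pairings and similitudes
-/

set_option autoImplicit false
set_option linter.unusedSectionVars false

open Matrix Finset
open Pool.Agent.X274.DT

namespace Pool.Agent.X274.DI

variable {r : ℕ} {N : Fin (r + 1) → ℕ} {E : Fin (r + 1) → Type} {k : ℕ}
  {ε : ∀ i, E i → Matrix (Fin (N i)) (Fin (N i)) ℚ} {J : ∀ i, Matrix (Fin (N i)) (Fin (N i)) ℚ}
variable {A : Finset (Fin k)}
  {F : ∀ (L : Type) [Field L] [CharZero L], (Fin k → ∀ i, Fin (N i) → L) → L}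

theorem Val.even (h : Val k ε J A F) : ∃ m, A.card = 2 * m := by
  induction h with
  | one => exact ⟨0, rfl⟩
  | pair i a j j' hne hj hj' h ih =>
    obtain ⟨m, hm⟩ := ih
    refine ⟨m + 1, ?_⟩
    rw [Finset.card_insert_of_notMem, Finset.card_insert_of_notMem hj', hm]
    · ring
    · rw [Finset.mem_insert, not_or]
      exact ⟨hne, hj⟩

/-- behaviour under similitudes which commute with the coefficients -/
theorem Val.sim (h : Val k ε J A F) (L : Type) [Field L] [CharZero L] (κ : L)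
    (G : ∀ i, Matrix (Fin (N i)) (Fin (N i)) L)
    (hG : ∀ i, (G i)ᵀ * cst L (J i) * G i = κ • cst L (J i))
    (hε : ∀ i a, cst L (ε i a) * G i = G i * cst L (ε i a)) (v : Fin k → ∀ i, Fin (N i) → L) :
    ∀ m, A.card = 2 * m → F L (fun j i => G i *ᵥ v j i) = κ ^ m * F L v := by
  induction h with
  | one =>
    intro m hm
    have : m = 0 := by simpa using hm
    subst this
    simp
  | @pair A F i a j j' hne hj hj' h ih =>
    intro m hm
    rw [Finset.card_insert_of_notMem (by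
      rw [Finset.mem_insert, not_or]
      exact ⟨hne, hj⟩), Finset.card_insert_of_notMem hj'] at hm
    obtain ⟨m', rfl⟩ : ∃ m', m = m' + 1 := ⟨m - 1, by omega⟩
    show ((cst L (ε i a) *ᵥ G i *ᵥ v j i) ⬝ᵥ cst L (J i) *ᵥ G i *ᵥ v j' i) * _ = _
    rw [ih m' (by omega)]
    have h1 : ∀ x y : Fin (N i) → L, (G i *ᵥ x) ⬝ᵥ cst L (J i) *ᵥ (G i *ᵥ y) =
        κ * (x ⬝ᵥ cst L (J i) *ᵥ y) := by
      intro x y
      have h2 : x ⬝ᵥ ((G i)ᵀ * cst L (J i) * G i) *ᵥ y = κ * (x ⬝ᵥ cst L (J i) *ᵥ y) := by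
        rw [hG i, smul_mulVec, dotProduct_smul, smul_eq_mul]
      rw [← h2, ← mulVec_mulVec, ← mulVec_mulVec, dotProduct_mulVec x (G i)ᵀ, vecMul_transpose]
    rw [mulVec_mulVec, hε, ← mulVec_mulVec, h1]
    ring

end Pool.Agent.X274.DI
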