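import Pool.Agent.X274.DI.One

/-!
# The characters of the coefficients which belong to the blocks
-/

set_option autoImplicit false
set_option linter.unusedSectionVars false

open Matrix Finset
open Pool.Agent.Y142.ZO (bil)
open Pool.Agent.Y710.SV
open Pool.Agent.X274.DT
open Pool.Agent.Y177.SU
open Pool.Agent.X274.SU (E_idem E_orth E_ne)

namespace Pool.Agent.X274.DI

variable {K : Type} [Field K] [CharZero K] {N n : ℕ} {𝒞 : Subalgebra K (Matrix (Fin N) (Fin N) K)}
variable {Ω : Type} [Field Ω] [Algebra K Ω] [CharZero Ω]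
variable {J : Matrix (Fin N) (Fin N) K} (Φ : Frm (up Ω J) (bc 𝒞 Ω) n) (hn : 0 < n)
  {E : Type} [Field E] (ε : E →+* Matrix (Fin N) (Fin N) K) (hε : ∀ a, ε a ∈ 𝒞)

omit [CharZero K] in
theorem up_zero' : up Ω (0 : Matrix (Fin N) (Fin N) K) = 0 := by
  ext i j
  exact map_zero (algebraMap K Ω)

include hn hε in
/-- the characters exist -/
theorem exists_char (t : Φ.T) : ∃ σ : E →+* Ω, ∀ a, up Ω (ε a) * Φ.E t = σ a • Φ.E t := by
  choose σ hσ using fun a => Φ.eig (up Ω (ε a)) (up_mem (hε a)) t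
  have hinj : ∀ {c c' : Ω}, c • Φ.E t = c' • Φ.E t → c = c' := by
    intro c c' h
    have h1 : (c - c') • Φ.E t = 0 := by rw [sub_smul, h, sub_self]
    exact sub_eq_zero.1 ((smul_eq_zero.1 h1).resolve_right (E_ne Φ hn t))
  refine ⟨{ toFun := σ, map_one' := ?_, map_mul' := ?_, map_zero' := ?_, map_add' := ?_ }, hσ⟩
  · apply hinj
    rw [← hσ, map_one, up_one, one_mul, one_smul]
  · intro a b
    apply hinj
    rw [← hσ, map_mul, up_mul, mul_assoc, hσ b, mul_smul_comm, hσ a, smul_smul, mul_comm]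
  · apply hinj
    rw [← hσ, map_zero, zero_smul]
    rw [up_zero', zero_mul]
  · intro a b
    apply hinj
    rw [← hσ, map_add, up_add, add_mul, hσ a, hσ b, add_smul]

/-- the character of the block `t` -/
noncomputable def chr (t : Φ.T) : E →+* Ω := (exists_char Φ hn ε hε t).choose

theorem chr_spec (t : Φ.T) (a : E) : up Ω (ε a) * Φ.E t = chr Φ hn ε hε t a • Φ.E t :=
  (exists_char Φ hn ε hε t).choose_spec a

theorem chr_inj (hspan : ∀ A ∈ 𝒞, A ∈ Submodule.span K (Set.range ε)) :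
    Function.Injective (chr Φ hn ε hε) := by
  intro t s hts
  by_contra hne
  have h1 : ∀ A ∈ bc 𝒞 Ω, ∃ c : Ω, A * Φ.E t = c • Φ.E t ∧ A * Φ.E s = c • Φ.E s := by
    intro A hA
    have hA' : A ∈ Submodule.span Ω (up Ω '' (𝒞 : Set (Matrix (Fin N) (Fin N) K))) := hA
    clear hA
    induction hA' using Submodule.span_induction with
    | mem M hM =>
      obtain ⟨A, hA, rfl⟩ := hM
      have h2 := hspan A hA
      clear hA
      induction h2 using Submodule.span_induction with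
      | mem M hM =>
        obtain ⟨a, rfl⟩ := hM
        exact ⟨_, chr_spec Φ hn ε hε t a, by rw [chr_spec Φ hn ε hε s a, hts]⟩
      | zero =>
        exact ⟨0, by rw [up_zero', zero_mul, zero_smul], by rw [up_zero', zero_mul, zero_smul]⟩
      | add A B _ _ h1 h2 =>
        obtain ⟨c, hc, hc'⟩ := h1
        obtain ⟨d, hd, hd'⟩ := h2
        exact ⟨c + d, by rw [up_add, add_mul, hc, hd, add_smul],
          by rw [up_add, add_mul, hc', hd', add_smul]⟩
      | smul a A _ h1 =>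
        obtain ⟨c, hc, hc'⟩ := h1
        exact ⟨algebraMap K Ω a * c, by rw [up_smul, smul_mul_assoc, hc, smul_smul],
          by rw [up_smul, smul_mul_assoc, hc', smul_smul]⟩
    | zero => exact ⟨0, by rw [zero_mul, zero_smul], by rw [zero_mul, zero_smul]⟩
    | add A B _ _ h1 h2 =>
      obtain ⟨c, hc, hc'⟩ := h1
      obtain ⟨d, hd, hd'⟩ := h2
      exact ⟨c + d, by rw [add_mul, hc, hd, add_smul], by rw [add_mul, hc', hd', add_smul]⟩
    | smul a A _ h1 =>
      obtain ⟨c, hc, hc'⟩ := h1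
      exact ⟨a * c, by rw [smul_mul_assoc, hc, smul_smul], by rw [smul_mul_assoc, hc', smul_smul]⟩
  obtain ⟨c, hc, hc'⟩ := h1 _ (Φ.mem t)
  rw [E_orth Φ hne] at hc'
  rw [E_idem] at hc
  have h2 : c = 0 := (smul_eq_zero.1 hc'.symm).resolve_right (E_ne Φ hn s)
  rw [h2, zero_smul] at hc
  exact E_ne Φ hn t hc

theorem chr_star {star : Φ.T → Φ.T} (hst : ∀ t, (Φ.E t)ᵀ * up Ω J = up Ω J * Φ.E (star t))
    (hss : ∀ t, star (star t) = t)
    (hC : ∀ A ∈ bc 𝒞 Ω, ∀ B ∈ bc 𝒞 Ω, A * B = B * A)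
    (hdet : (up Ω J).det ≠ 0) {bar : E →+* E} (hbar : ∀ a, (ε a)ᵀ * J = J * ε (bar a)) (t : Φ.T) :
    chr Φ hn ε hε (star t) = (chr Φ hn ε hε t).comp bar := by
  have hu : IsUnit (up Ω J).det := isUnit_iff_ne_zero.2 hdet
  have hcancel : ∀ {A B : Matrix (Fin N) (Fin N) Ω}, up Ω J * A = up Ω J * B → A = B := by
    intro A B h
    calc A = (up Ω J)⁻¹ * (up Ω J * A) := by
          rw [← mul_assoc, Matrix.nonsing_inv_mul _ hu, one_mul]
      _ = (up Ω J)⁻¹ * (up Ω J * B) := by rw [h]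
      _ = B := by rw [← mul_assoc, Matrix.nonsing_inv_mul _ hu, one_mul]
  have hbar' : ∀ a, (up Ω (ε a))ᵀ * up Ω J = up Ω J * up Ω (ε (bar a)) := by
    intro a
    rw [← up_transpose, ← up_mul, hbar, up_mul]
  have h1 : ∀ t b, chr Φ hn ε hε (star t) (bar b) = chr Φ hn ε hε t b := by
    intro t b
    have h2 : up Ω (ε (bar b)) * Φ.E (star t) = chr Φ hn ε hε t b • Φ.E (star t) := by
      apply hcancel
      rw [← mul_assoc, ← hbar', mul_assoc, ← hst, ← mul_assoc, ← transpose_mul,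
        hC _ (Φ.mem t) _ (up_mem (hε b)), chr_spec Φ hn ε hε t b, transpose_smul, smul_mul_assoc, hst,
        mul_smul_comm]
    rw [chr_spec Φ hn ε hε (star t) (bar b)] at h2
    have h3 : (chr Φ hn ε hε (star t) (bar b) - chr Φ hn ε hε t b) • Φ.E (star t) = 0 := by
      rw [sub_smul, h2, sub_self]
    exact sub_eq_zero.1 ((smul_eq_zero.1 h3).resolve_right (E_ne Φ hn _))
  ext a
  have h2 := h1 (star t) a
  rw [hss] at h2
  exact h2.symm

end Pool.Agent.X274.DI
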