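import Pool.Agent.X274.DT.Closed
import Pool.Agent.X274.DT.Desc

/-!
# The determinants of the blocks
-/

set_option autoImplicit false
set_option linter.unusedSectionVars false

open Matrix Finset
open Pool.Agent.Y142.ZO (bil)
open Pool.Agent.Y710.SV
open Pool.Agent.X274.SU (E_idem E_orth Q_zero R_zero RQ_apply bil_sum_left bil_sum_right)
open Pool.Agent.X274.DT
open Pool.Agent.Y177.SU

namespace Pool.Agent.X274.DI

variable {F : Type} [Field F] {N n k : ℕ} {J : Matrix (Fin N) (Fin N) F}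
    {𝒞 : Subalgebra F (Matrix (Fin N) (Fin N) F)} (Φ : Frm J 𝒞 n)
    (hcard : ∀ t, (blk Φ.κ t).card = n)

/-- the indices of the block `t` -/
noncomputable def bs (t : Φ.T) : Fin n ↪ Φ.S :=
  (Finset.equivFinOfCardEq (hcard t)).symm.toEmbedding.trans (Function.Embedding.subtype _)

theorem bs_κ (t : Φ.T) (l : Fin n) : Φ.κ (bs Φ hcard t l) = t :=
  mem_blk.1 ((Finset.equivFinOfCardEq (hcard t)).symm l).2

theorem bs_surj {t : Φ.T} {s : Φ.S} (h : Φ.κ s = t) : ∃ l, bs Φ hcard t l = s := by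
  refine ⟨Finset.equivFinOfCardEq (hcard t) ⟨s, mem_blk.2 h⟩, ?_⟩
  show (((Finset.equivFinOfCardEq (hcard t)).symm (Finset.equivFinOfCardEq (hcard t) _) :
    blk Φ.κ t) : Φ.S) = s
  rw [Equiv.symm_apply_apply]

/-- the coordinates -/
noncomputable def crd (t : Φ.T) : (Fin N → F) →ₗ[F] (Fin n → F) where
  toFun x l := bil J (bd Φ (bs Φ hcard t l)) x
  map_add' x y := by
    funext l
    show bil J _ _ = bil J _ _ + bil J _ _
    unfold bil
    rw [mulVec_add, dotProduct_add]
  map_smul' c x := by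
    funext l
    show bil J _ _ = c * bil J _ _
    unfold bil
    rw [mulVec_smul, dotProduct_smul, smul_eq_mul]

/-- the determinant of the block `t` -/
noncomputable def Dt (t : Φ.T) : (Fin N → F) [⋀^Fin n]→ₗ[F] F :=
  Matrix.detRowAlternating.compLinearMap (crd Φ hcard t)

theorem Dt_apply (t : Φ.T) (x : Fin n → Fin N → F) :
    Dt Φ hcard t x = (Matrix.of fun m l => bil J (bd Φ (bs Φ hcard t l)) (x m)).det := rfl

theorem Dt_smul {A : Matrix (Fin N) (Fin N) F} {α : Φ.T → F}
    (hα : ∀ t, A * Φ.E t = α t • Φ.E t) (t : Φ.T) (x : Fin n → Fin N → F) (l : Fin n) :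
    Dt Φ hcard t (Function.update x l (A *ᵥ x l)) = α t * Dt Φ hcard t x := by
  have h2 : crd Φ hcard t (A *ᵥ x l) = α t • crd Φ hcard t (x l) := by
    funext m
    show bil J (bd Φ (bs Φ hcard t m)) (A *ᵥ x l) = α t * bil J (bd Φ (bs Φ hcard t m)) (x l)
    rw [bd_mul Φ hα, bs_κ]
  have h3 : Dt Φ hcard t (Function.update x l (A *ᵥ x l)) = Matrix.detRowAlternating
      (Function.update (fun m => crd Φ hcard t (x m)) l (crd Φ hcard t (A *ᵥ x l))) := by
    show Matrix.detRowAlternating (fun m => crd Φ hcard t (Function.update x l (A *ᵥ x l) m)) = _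
    congr 1
    funext m
    by_cases hm : m = l
    · subst hm
      rw [Function.update_self, Function.update_self]
    · rw [Function.update_of_ne hm, Function.update_of_ne hm]
  rw [h3, h2, AlternatingMap.map_update_smul, Function.update_eq_self]
  rfl

theorem Dt_bal (t : Φ.T) {A : Matrix (Fin N) (Fin N) F} (hA : A ∈ 𝒞) (x : Fin n → Fin N → F)
    (l l' : Fin n) : Dt Φ hcard t (Function.update x l (A *ᵥ x l)) =
      Dt Φ hcard t (Function.update x l' (A *ᵥ x l')) := by
  choose α hα using Φ.eig A hA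
  rw [Dt_smul Φ hcard hα, Dt_smul Φ hcard hα]

/-- the product of the determinants of two dual blocks -/
theorem Dt_pair {star : Φ.T → Φ.T} (hst : ∀ t, (Φ.E t)ᵀ * J = J * Φ.E (star t))
    (hss : ∀ t, star (star t) = t) (t : Φ.T) :
    ∃ c : F, ∀ x y : Fin n → Fin N → F, Dt Φ hcard t x * Dt Φ hcard (star t) y =
      c * (Matrix.of fun m l => (Φ.E t *ᵥ x m) ⬝ᵥ J *ᵥ y l).det := by
  classical
  let a := bs Φ hcard t
  let b := bs Φ hcard (star t)
  let Qt : Matrix (Fin n) (Fin n) F := Matrix.of fun i j => Φ.Q (a i) (b j)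
  let Rt : Matrix (Fin n) (Fin n) F := Matrix.of fun j i => Φ.R (b j) (a i)
  have hsumb : ∀ g : Φ.S → F, (∀ p, Φ.κ p ≠ star t → g p = 0) → ∑ p, g p = ∑ j, g (b j) := by
    intro g hg
    symm
    refine Finset.sum_of_injOn b (fun x _ y _ h => b.injective h) (fun _ _ => by simp) ?_
      (fun _ _ => rfl)
    intro p _ hp
    apply hg
    intro h
    obtain ⟨l, hl⟩ := bs_surj Φ hcard h
    exact hp ⟨l, by simp, hl⟩
  have hQR : Qt * Rt = 1 := by
    ext i i'
    rw [Matrix.mul_apply]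
    have h1 : ∑ j, Qt i j * Rt j i' = ∑ p, Φ.Q (a i) p * Φ.R p (a i') := by
      rw [hsumb fun p => Φ.Q (a i) p * Φ.R p (a i')]
      · rfl
      · intro p hp
        rw [Q_zero Φ hst hss (a := a i) (b := p) (by rw [bs_κ]; exact hp), zero_mul]
    rw [h1]
    have h2 := congrFun (congrFun Φ.QR (a i)) (a i')
    rw [Matrix.mul_apply] at h2
    rw [h2, Matrix.one_apply, Matrix.one_apply]
    simp only [a.injective.eq_iff]
  have hdet : Qt.det ≠ 0 := by
    intro h0
    have h1 := congrArg Matrix.det hQR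
    rw [Matrix.det_mul, h0, zero_mul, det_one] at h1
    exact zero_ne_one h1
  have hEx : ∀ x : Fin N → F, Φ.E t *ᵥ x = ∑ i, bil J (bd Φ (a i)) x • Φ.β (a i) := by
    intro x
    conv_lhs => rw [expand_β Φ x, Matrix.mulVec_sum]
    symm
    refine Finset.sum_of_injOn a (fun x _ y _ h => a.injective h) (fun _ _ => by simp) ?_ ?_
    · intro p _ hp
      rw [mulVec_smul, Φ.Eβ, if_neg, smul_zero]
      intro h
      obtain ⟨l, hl⟩ := bs_surj Φ hcard h
      exact hp ⟨l, by simp, hl⟩
    · intro i _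
      rw [mulVec_smul, Φ.Eβ, if_pos (bs_κ Φ hcard t i)]
  have hM : ∀ x y : Fin n → Fin N → F, (Matrix.of fun m l => (Φ.E t *ᵥ x m) ⬝ᵥ J *ᵥ y l) =
      (Matrix.of fun m i => bil J (bd Φ (a i)) (x m)) * Qt *
        (Matrix.of fun l j => bil J (bd Φ (b j)) (y l))ᵀ := by
    intro x y
    ext m l
    rw [Matrix.mul_apply]
    have h1 : (Φ.E t *ᵥ x m) ⬝ᵥ J *ᵥ y l =
        ∑ i, bil J (bd Φ (a i)) (x m) * ∑ j, Qt i j * bil J (bd Φ (b j)) (y l) := by
      show bil J (Φ.E t *ᵥ x m) (y l) = _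
      rw [hEx, bil_sum_left]
      refine Finset.sum_congr rfl fun i _ => ?_
      congr 1
      conv_lhs => rw [expand_β Φ (y l), bil_sum_right]
      rw [hsumb]
      · refine Finset.sum_congr rfl fun j _ => ?_
        rw [mul_comm, ← Φ.hQ]
        rfl
      · intro p hp
        rw [← Φ.hQ, Q_zero Φ hst hss (a := a i) (b := p) (by rw [bs_κ]; exact hp), mul_zero]
    show (Φ.E t *ᵥ x m) ⬝ᵥ J *ᵥ y l = _
    rw [h1]
    simp only [Matrix.mul_apply, Matrix.transpose_apply, Matrix.of_apply, Finset.mul_sum,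
      Finset.sum_mul]
    rw [Finset.sum_comm]
    refine Finset.sum_congr rfl fun i _ => Finset.sum_congr rfl fun j _ => ?_
    ring
  refine ⟨Qt.det⁻¹, fun x y => ?_⟩
  rw [hM, Matrix.det_mul, Matrix.det_mul, Matrix.det_transpose, Dt_apply, Dt_apply]
  field_simp
  rfl

/-- an antisymmetric balanced form is a combination of the determinants of the blocks -/
theorem sum_Dt (hn : 0 < n) (ψ : MultilinearMap F (fun _ : Fin n => Fin N → F) F) [CharZero F]
    (hanti : ∀ (π : Equiv.Perm (Fin n)) x, ψ (fun l => x (π l)) = (Equiv.Perm.sign π : ℤ) • ψ x)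
    (hbal : ∀ A ∈ 𝒞, ∀ (x : Fin n → Fin N → F) (l l' : Fin n),
      ψ (Function.update x l (A *ᵥ x l)) = ψ (Function.update x l' (A *ᵥ x l')))
    (x : Fin n → Fin N → F) :
    ψ x = ∑ t, ψ (fun l => Φ.β (bs Φ hcard t l)) * Dt Φ hcard t x := by
  classical
  have h1 : ψ x = ∑ I : Fin n → Φ.S, (∏ m, bil J (bd Φ (I m)) (x m)) * ψ fun m => Φ.β (I m) := by
    have h2 : x = fun m => ∑ s, bil J (bd Φ s) (x m) • Φ.β s := by
      funext m
      exact expand_β Φ (x m)
    conv_lhs => rw [h2]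
    rw [MultilinearMap.map_sum]
    refine Finset.sum_congr rfl fun I _ => ?_
    rw [MultilinearMap.map_smul_univ, smul_eq_mul]
  have h2 : ∀ I : Fin n → Φ.S, (∀ t, ¬ ∀ m, Φ.κ (I m) = t) → ψ (fun m => Φ.β (I m)) = 0 := by
    intro I hI
    have h3 := hI (Φ.κ (I ⟨0, hn⟩))
    push Not at h3
    obtain ⟨m, hm⟩ := h3
    have h4 := hbal _ (Φ.mem (Φ.κ (I ⟨0, hn⟩))) (fun m => Φ.β (I m)) ⟨0, hn⟩ m
    rw [Φ.Eβ, if_pos rfl, Φ.Eβ, if_neg hm, Function.update_eq_self,
      MultilinearMap.map_update_zero] at h4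
    exact h4
  have h3 : ∀ I : Fin n → Φ.S, ¬ Function.Injective I → ψ (fun m => Φ.β (I m)) = 0 := by
    intro I hI
    unfold Function.Injective at hI
    push Not at hI
    obtain ⟨i, j, hij, hne⟩ := hI
    have h4 := hanti (Equiv.swap i j) fun m => Φ.β (I m)
    rw [Equiv.Perm.sign_swap hne] at h4
    have h5 : (fun l => Φ.β (I (Equiv.swap i j l))) = fun l => Φ.β (I l) := by
      funext l
      by_cases h6 : l = i
      · subst h6
        rw [Equiv.swap_apply_left, hij]
      · by_cases h7 : l = j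
        · subst h7
          rw [Equiv.swap_apply_right, hij]
        · rw [Equiv.swap_apply_of_ne_of_ne h6 h7]
    rw [h5] at h4
    have h6 : (2 : F) * ψ (fun l => Φ.β (I l)) = 0 := by
      have h7 : ((-1 : ℤˣ) : ℤ) • ψ (fun l => Φ.β (I l)) = -ψ (fun l => Φ.β (I l)) := by simp
      rw [h7] at h4
      linear_combination h4
    exact (mul_eq_zero.1 h6).resolve_left two_ne_zero
  rw [h1]
  have h4 : ∀ t, ψ (fun l => Φ.β (bs Φ hcard t l)) * Dt Φ hcard t x =
      ∑ π : Equiv.Perm (Fin n), (∏ m, bil J (bd Φ (bs Φ hcard t (π m))) (x m)) *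
        ψ fun m => Φ.β (bs Φ hcard t (π m)) := by
    intro t
    rw [Dt_apply, ← Matrix.det_transpose, Matrix.det_apply', Finset.mul_sum]
    refine Finset.sum_congr rfl fun π _ => ?_
    rw [hanti π fun m => Φ.β (bs Φ hcard t m)]
    simp only [Matrix.transpose_apply, Matrix.of_apply, zsmul_eq_mul]
    ring
  rw [Finset.sum_congr rfl fun t _ => h4 t, ← Finset.sum_product', Finset.univ_product_univ]
  symm
  refine Finset.sum_of_injOn (fun (p : Φ.T × Equiv.Perm (Fin n)) m => bs Φ hcard p.1 (p.2 m))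
    ?_ (fun _ _ => by simp) ?_ (fun _ _ => rfl)
  · rintro ⟨t, π⟩ _ ⟨t', π'⟩ _ h
    have h5 : t = t' := by
      have h6 := congrArg Φ.κ (congrFun h ⟨0, hn⟩)
      simpa only [bs_κ] using h6
    subst h5
    have h6 : π = π' := Equiv.ext fun m => (bs Φ hcard t).injective (congrFun h m)
    rw [h6]
  · intro I _ hI
    by_cases h5 : ∃ t, ∀ m, Φ.κ (I m) = t
    · obtain ⟨t, ht⟩ := h5
      by_cases h6 : Function.Injective I
      · exfalso
        apply hI
        choose π hπ using fun m => bs_surj Φ hcard (ht m)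
        have hπi : Function.Injective π := by
          intro m m' h
          apply h6
          rw [← hπ m, ← hπ m', h]
        refine ⟨(t, Equiv.ofBijective π (Finite.injective_iff_bijective.1 hπi)), by simp, ?_⟩
        funext m
        exact hπ m
      · rw [h3 I h6, mul_zero]
    · push Not at h5
      rw [h2 I fun t ht => by
        obtain ⟨m, hm⟩ := h5 t
        exact hm (ht m), mul_zero]

end Pool.Agent.X274.DI
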