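import Pool.Agent.X274.DI.Det

/-!
# Determinants over the smaller field
-/

set_option autoImplicit false
set_option linter.unusedSectionVars false

open Matrix Finset
open Pool.Agent.Y142.ZO (bil)
open Pool.Agent.Y710.SV
open Pool.Agent.X274.DT
open Pool.Agent.Y177.SU

namespace Pool.Agent.X274.DI

variable {K : Type} [Field K] [CharZero K] {N n : ℕ} {𝒞 : Subalgebra K (Matrix (Fin N) (Fin N) K)}
variable {Ω : Type} [Field Ω] [Algebra K Ω] [CharZero Ω]

/-- multilinear forms are determined by the rational vectors -/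
theorem ext_up {ψ ψ' : MultilinearMap Ω (fun _ : Fin n => Fin N → Ω) Ω}
    (h : ∀ v : Fin n → Fin N → K, ψ (fun l => upv Ω (v l)) = ψ' fun l => upv Ω (v l)) : ψ = ψ' := by
  refine MultilinearMap.ext fun v => ?_
  rw [expand ψ v, expand ψ' v]
  refine Finset.sum_congr rfl fun r _ => ?_
  have h1 := h fun l => Pi.single (r l) 1
  have h2 : (fun l => upv Ω (Pi.single (r l) (1 : K))) = fun l => Pi.single (r l) (1 : Ω) := by
    funext l i
    unfold upv
    by_cases hi : i = r l
    · subst hi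
      rw [Pi.single_eq_same, Pi.single_eq_same, map_one]
    · rw [Pi.single_eq_of_ne hi, Pi.single_eq_of_ne hi, map_zero]
  rw [h2] at h1
  rw [h1]

theorem upf_anti (ω : (Fin N → K) [⋀^Fin n]→ₗ[K] K) (π : Equiv.Perm (Fin n))
    (x : Fin n → Fin N → Ω) : upf Ω ω.toMultilinearMap (fun l => x (π l)) =
      (Equiv.Perm.sign π : ℤ) • upf Ω ω.toMultilinearMap x := by
  have h1 : (upf Ω ω.toMultilinearMap).domDomCongr π =
      (Equiv.Perm.sign π : ℤ) • upf Ω ω.toMultilinearMap := by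
    refine ext_up (K := K) fun v => ?_
    have h2 : (upf Ω ω.toMultilinearMap).domDomCongr π (fun l => upv Ω (v l)) =
        upf Ω ω.toMultilinearMap fun l => upv Ω (v (π l)) := rfl
    have h3 : ω.toMultilinearMap (fun l => v (π l)) = (Equiv.Perm.sign π : ℤ) •
        ω.toMultilinearMap v := ω.map_perm v π
    rw [h2, upf_up, h3, map_zsmul, ← upf_up]
    rfl
  exact congrArg (fun f : MultilinearMap Ω (fun _ : Fin n => Fin N → Ω) Ω => f x) h1

/-- replace the variable `l` -/
def atVar (ψ : MultilinearMap Ω (fun _ : Fin n => Fin N → Ω) Ω) (l : Fin n)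
    (A : Matrix (Fin N) (Fin N) Ω) : MultilinearMap Ω (fun _ : Fin n => Fin N → Ω) Ω :=
  ψ.compLinearMap fun j => if j = l then A.mulVecLin else LinearMap.id

theorem atVar_apply (ψ : MultilinearMap Ω (fun _ : Fin n => Fin N → Ω) Ω) (l : Fin n)
    (A : Matrix (Fin N) (Fin N) Ω) (x : Fin n → Fin N → Ω) :
    atVar ψ l A x = ψ (Function.update x l (A *ᵥ x l)) := by
  unfold atVar
  rw [MultilinearMap.compLinearMap_apply]
  congr 1
  funext j
  by_cases h : j = l
  · subst h
    rw [if_pos rfl, Function.update_self]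
    rfl
  · rw [if_neg h, Function.update_of_ne h]
    rfl

theorem upf_bal (ω : (Fin N → K) [⋀^Fin n]→ₗ[K] K)
    (hbal : ∀ A ∈ 𝒞, ∀ (x : Fin n → Fin N → K) (l l' : Fin n),
      ω (Function.update x l (A *ᵥ x l)) = ω (Function.update x l' (A *ᵥ x l')))
    {A : Matrix (Fin N) (Fin N) Ω} (hA : A ∈ bc 𝒞 Ω) (x : Fin n → Fin N → Ω) (l l' : Fin n) :
    upf Ω ω.toMultilinearMap (Function.update x l (A *ᵥ x l)) =
      upf Ω ω.toMultilinearMap (Function.update x l' (A *ᵥ x l')) := by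
  have hA' : A ∈ Submodule.span Ω (up Ω '' (𝒞 : Set (Matrix (Fin N) (Fin N) K))) := hA
  clear hA
  induction hA' using Submodule.span_induction with
  | mem M hM =>
    obtain ⟨A, hA, rfl⟩ := hM
    rw [← atVar_apply, ← atVar_apply]
    have h1 : atVar (upf Ω ω.toMultilinearMap) l (up Ω A) =
        atVar (upf Ω ω.toMultilinearMap) l' (up Ω A) := by
      refine ext_up (K := K) fun v => ?_
      rw [atVar_apply, atVar_apply, up_mulVec, up_mulVec, ← upv_update, ← upv_update, upf_up,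
        upf_up]
      congr 1
      exact hbal A hA v l l'
    rw [h1]
  | zero =>
    rw [zero_mulVec, zero_mulVec, MultilinearMap.map_update_zero, MultilinearMap.map_update_zero]
  | add A B hA hB h1 h2 =>
    rw [add_mulVec, add_mulVec, MultilinearMap.map_update_add, MultilinearMap.map_update_add,
      h1, h2]
  | smul c A hA h1 =>
    rw [smul_mulVec, smul_mulVec, MultilinearMap.map_update_smul, MultilinearMap.map_update_smul,
      h1]

variable {J : Matrix (Fin N) (Fin N) K} (Φ : Frm (up Ω J) (bc 𝒞 Ω) n)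
    (hcard : ∀ t, (blk Φ.κ t).card = n)

/-- the determinants over the smaller field in terms of the determinants of the blocks -/
theorem DD_sum (hn : 0 < n) {al : Prop} {δ : (Fin n → Fin N → K) → K} (hδ : δ ∈ DD 𝒞 n al n) :
    ∃ c : Φ.T → Ω, ∀ x, algebraMap K Ω (δ x) =
      ∑ t, c t * Dt Φ hcard t fun l => upv Ω (x l) := by
  obtain ⟨-, -, ω, hbal, hω⟩ := hδ
  refine ⟨fun t => upf Ω ω.toMultilinearMap fun l => Φ.β (bs Φ hcard t l), fun x => ?_⟩
  rw [← sum_Dt Φ hcard hn _ (upf_anti ω) (fun A hA x l l' => upf_bal ω hbal hA x l l'), upf_up, hω]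
  rfl

theorem Dt_mem (t : Φ.T) : (fun x => Dt Φ hcard t x) ∈ DD (bc 𝒞 Ω) n True n :=
  ⟨rfl, trivial, Dt Φ hcard t, fun _ hA x l l' => Dt_bal Φ hcard t hA x l l', fun _ => rfl⟩

/-- an operator which acts on the determinants over the smaller field as the element `A` of the algebra
does, has the determinants of the blocks as eigenvectors -/
theorem Dt_eig (hn : 0 < n) {G A : Matrix (Fin N) (Fin N) K}
    (hG : ∀ ω : (Fin N → K) [⋀^Fin n]→ₗ[K] K,
      (∀ A ∈ 𝒞, ∀ (x : Fin n → Fin N → K) (l l' : Fin n),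
        ω (Function.update x l (A *ᵥ x l)) = ω (Function.update x l' (A *ᵥ x l'))) →
      ∀ x l, ω (fun j => G *ᵥ x j) = ω (Function.update x l (A *ᵥ x l)))
    {α : Φ.T → Ω} (hα : ∀ t, up Ω A * Φ.E t = α t • Φ.E t) (t : Φ.T) (x : Fin n → Fin N → K) :
    Dt Φ hcard t (fun l => upv Ω (G *ᵥ x l)) = α t * Dt Φ hcard t fun l => upv Ω (x l) := by
  obtain ⟨d, c, δ', hδ', h⟩ := desc_D n _ (Dt_mem Φ hcard t)
  have h1 : Dt Φ hcard t (fun l => upv Ω (G *ᵥ x l)) =
      Dt Φ hcard t fun l => upv Ω (Function.update x ⟨0, hn⟩ (A *ᵥ x ⟨0, hn⟩) l) := by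
    have e1 := h fun l => G *ᵥ x l
    have e2 := h (Function.update x ⟨0, hn⟩ (A *ᵥ x ⟨0, hn⟩))
    rw [e1, e2]
    refine Finset.sum_congr rfl fun i _ => ?_
    obtain ⟨-, -, ω, hbal, hω⟩ := hδ' i
    rw [hω, hω, hG ω hbal x ⟨0, hn⟩]
  rw [h1, upv_update, ← up_mulVec, Dt_smul Φ hcard hα]

end Pool.Agent.X274.DI
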